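import Pool.Agent.H93.AR.Defs

/-!
# BU: one bump of angular size `R^(-1/2)`
-/

set_option autoImplicit false

namespace Pool.Agent.H89.BR

open MeasureTheory Set FourierTransform Pool.Agent.H83.LS Pool.Agent.H54.LS Pool.Agent.H93.AR
open scoped ENNReal NNReal

/-! ### smoothness of the building blocks -/

theorem eta0_one {s : ℝ} (h : s ≤ 1) : eta0 s = 1 := by
  unfold eta0
  exact Real.smoothTransition.one_of_one_le (by linarith)

theorem eta0_zero {s : ℝ} (h : 2 ≤ s) : eta0 s = 0 := by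
  unfold eta0
  exact Real.smoothTransition.zero_of_nonpos (by linarith)

theorem cd_eta0 : ContDiff ℝ (⊤ : ℕ∞) eta0 := by
  unfold eta0
  exact Real.smoothTransition.contDiff.comp (contDiff_const.sub contDiff_id)

theorem cd_etan {d : ℕ} : ContDiff ℝ (⊤ : ℕ∞) fun y : EE d => eta0 (8 * ‖y‖) := by
  rw [contDiff_iff_contDiffAt]
  intro y
  by_cases hy : y = 0
  · have h1 : (fun y : EE d => eta0 (8 * ‖y‖)) =ᶠ[nhds y] fun _ => 1 := by
      have h2 : ∀ᶠ z : EE d in nhds y, ‖z‖ < 1 / 8 := by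
        apply (continuous_norm.tendsto y).eventually_lt_const
        rw [hy]
        norm_num
      filter_upwards [h2] with z hz
      exact eta0_one (by linarith)
    exact contDiffAt_const.congr_of_eventuallyEq h1
  · exact cd_eta0.contDiffAt.comp y (contDiffAt_const.mul (contDiffAt_norm ℝ hy))

theorem cd_e : ContDiff ℝ (⊤ : ℕ∞) e := by
  unfold e
  apply Complex.contDiff_exp.comp
  refine ContDiff.mul ?_ contDiff_const
  exact Complex.ofRealCLM.contDiff.comp (contDiff_const.mul contDiff_id)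

/-- cutoff: `1` on `[1/8,8]`, `0` for `s ≤ 1/16` -/
noncomputable def th (s : ℝ) : ℝ := eta0 (s / 8) * (1 - eta0 (16 * s))

/-- smooth function which is `1/s` on `[1/8,8]` -/
noncomputable def rho (s : ℝ) : ℝ := th s * s⁻¹

theorem th_one {s : ℝ} (h1 : 1 / 8 ≤ s) (h2 : s ≤ 8) : th s = 1 := by
  unfold th
  rw [eta0_one (by linarith), eta0_zero (by linarith)]
  ring

theorem th_zero {s : ℝ} (h : s ≤ 1 / 16) : th s = 0 := by
  unfold th
  rw [eta0_one (s := 16 * s) (by linarith)]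
  ring

theorem rho_eq {s : ℝ} (h1 : 1 / 8 ≤ s) (h2 : s ≤ 8) : rho s = s⁻¹ := by
  unfold rho
  rw [th_one h1 h2, one_mul]

theorem cd_th : ContDiff ℝ (⊤ : ℕ∞) th := by
  unfold th
  exact (cd_eta0.comp (contDiff_id.div_const 8)).mul
    (contDiff_const.sub (cd_eta0.comp (contDiff_const.mul contDiff_id)))

theorem cd_rho : ContDiff ℝ (⊤ : ℕ∞) rho := by
  rw [contDiff_iff_contDiffAt]
  intro s
  by_cases hs : 0 < s
  · exact cd_th.contDiffAt.mul (contDiffAt_inv ℝ hs.ne')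
  · have h1 : rho =ᶠ[nhds s] fun _ => 0 := by
      have h2 : ∀ᶠ z : ℝ in nhds s, z < 1 / 16 := by
        apply eventually_lt_nhds
        linarith
      filter_upwards [h2] with z hz
      unfold rho
      rw [th_zero hz.le, zero_mul]
    exact contDiffAt_const.congr_of_eventuallyEq h1

theorem cd_pr {m : ℕ} : ContDiff ℝ (⊤ : ℕ∞) (pr : EE (m + 1) → EE m) := by
  rw [contDiff_euclidean]
  intro i
  show ContDiff ℝ (⊤ : ℕ∞) fun x : EE (m + 1) => x i.castSucc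
  exact (contDiff_euclidean.1 contDiff_id) i.castSucc

theorem cd_last {m : ℕ} : ContDiff ℝ (⊤ : ℕ∞) (fun x : EE (m + 1) => x (Fin.last m)) :=
  (contDiff_euclidean.1 contDiff_id) (Fin.last m)

theorem cd_jo {m : ℕ} {P : Type} [NormedAddCommGroup P] [NormedSpace ℝ P] {f : P → EE m}
    {g : P → ℝ} (hf : ContDiff ℝ (⊤ : ℕ∞) f) (hg : ContDiff ℝ (⊤ : ℕ∞) g) :
    ContDiff ℝ (⊤ : ℕ∞) fun p => jo (f p) (g p) := by
  rw [contDiff_euclidean]
  intro i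
  refine Fin.lastCases ?_ (fun j => ?_) i
  · simp only [jo_last]
    exact hg
  · simp only [jo_castSucc]
    exact (contDiff_euclidean.1 hf) j

/-! ### the functions in the new coordinates -/

noncomputable def Sv {m : ℕ} (ε : ℝ) (y : EE m) : ℝ := Real.sqrt (1 + ε ^ 2 * ‖y‖ ^ 2)

noncomputable def qv {m : ℕ} (ε : ℝ) (y : EE m) : ℝ := (Sv ε y * (Sv ε y + 1))⁻¹

noncomputable def Wv {m : ℕ} (ε : ℝ) (y : EE m) : EE (m + 1) :=
  jo ((Sv ε y)⁻¹ • y) (-(ε * ‖y‖ ^ 2 * qv ε y))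

noncomputable def Ev {m : ℕ} (ε : ℝ) (v : EE (m + 1)) (y : EE m) : ℝ :=
  ‖y‖ ^ 2 * qv ε y * (v (Fin.last m) + ε * inner ℝ (pr v) y)

noncomputable def yv {m : ℕ} (x : EE (m + 1)) : EE m := rho (x (Fin.last m)) • pr x

/-- parameters `ε`, `ε/δ`, `u` -/
abbrev PP (m : ℕ) : Type := ℝ × ℝ × EE (m + 1)

noncomputable def PsA {m : ℕ} (q : PP m × EE (m + 1)) : ℂ :=
  e (q.2 (Fin.last m) * Ev q.1.1 q.1.2.2 (yv q.2)) *
    ((eta0 (8 * ‖Wv q.1.1 (yv q.2)‖) * (Sv q.1.1 (yv q.2) ^ (m + 1))⁻¹ *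
      rho (q.2 (Fin.last m)) ^ m : ℝ) : ℂ)

noncomputable def PhA {m : ℕ} (q : PP m × EE (m + 1)) : ℝ × EE (m + 1) :=
  (q.2 (Fin.last m), q.1.2.1 • Wv q.1.1 (yv q.2))

theorem Sv_pos {m : ℕ} (ε : ℝ) (y : EE m) : 1 ≤ Sv ε y := by
  unfold Sv
  rw [Real.one_le_sqrt]
  have : 0 ≤ ε ^ 2 * ‖y‖ ^ 2 := by positivity
  linarith

theorem cd_yv {m : ℕ} : ContDiff ℝ (⊤ : ℕ∞) (yv : EE (m + 1) → EE m) := by
  unfold yv
  exact (cd_rho.comp cd_last).smul cd_pr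

theorem cd_Sv {m : ℕ} : ContDiff ℝ (⊤ : ℕ∞) fun q : PP m × EE (m + 1) => Sv q.1.1 (yv q.2) := by
  unfold Sv
  apply ContDiff.sqrt
  · exact contDiff_const.add ((contDiff_fst.fst.pow 2).mul ((cd_yv.comp contDiff_snd).norm_sq ℝ))
  · intro q
    have : 0 ≤ q.1.1 ^ 2 * ‖yv q.2‖ ^ 2 := by positivity
    positivity

theorem cd_qv {m : ℕ} : ContDiff ℝ (⊤ : ℕ∞) fun q : PP m × EE (m + 1) => qv q.1.1 (yv q.2) := by
  unfold qv
  apply ContDiff.inv
  · exact cd_Sv.mul (cd_Sv.add contDiff_const)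
  · intro q
    have := Sv_pos q.1.1 (yv q.2)
    positivity

theorem cd_Wv {m : ℕ} : ContDiff ℝ (⊤ : ℕ∞) fun q : PP m × EE (m + 1) => Wv q.1.1 (yv q.2) := by
  unfold Wv
  apply cd_jo
  · exact (cd_Sv.inv fun q => by have := Sv_pos q.1.1 (yv q.2); positivity).smul
      (cd_yv.comp contDiff_snd)
  · exact ((contDiff_fst.fst.mul ((cd_yv.comp contDiff_snd).norm_sq ℝ)).mul cd_qv).neg

theorem cd_Ev {m : ℕ} :
    ContDiff ℝ (⊤ : ℕ∞) fun q : PP m × EE (m + 1) => Ev q.1.1 q.1.2.2 (yv q.2) := by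
  unfold Ev
  apply ContDiff.mul
  · exact ((cd_yv.comp contDiff_snd).norm_sq ℝ).mul cd_qv
  · apply ContDiff.add
    · exact cd_last.comp contDiff_fst.snd.snd
    · exact contDiff_fst.fst.mul ((cd_pr.comp contDiff_fst.snd.snd).inner ℝ
        (cd_yv.comp contDiff_snd))

theorem cd_PsA {m : ℕ} : ContDiff ℝ (⊤ : ℕ∞) (PsA : PP m × EE (m + 1) → ℂ) := by
  unfold PsA
  apply ContDiff.mul
  · exact cd_e.comp ((cd_last.comp contDiff_snd).mul cd_Ev)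
  · apply Complex.ofRealCLM.contDiff.comp
    apply ContDiff.mul
    · apply ContDiff.mul
      · exact cd_etan.comp cd_Wv
      · exact (cd_Sv.pow _).inv fun q => by have := Sv_pos q.1.1 (yv q.2); positivity
    · exact (cd_rho.comp (cd_last.comp contDiff_snd)).pow _

theorem cd_PhA {m : ℕ} : ContDiff ℝ (⊤ : ℕ∞) (PhA : PP m × EE (m + 1) → ℝ × EE (m + 1)) := by
  unfold PhA
  apply ContDiff.prodMk
  · exact cd_last.comp contDiff_snd
  · exact contDiff_fst.snd.fst.smul cd_Wv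

/-! ### the algebraic identities -/

theorem Sv_sq {m : ℕ} (ε : ℝ) (y : EE m) : Sv ε y ^ 2 = 1 + ε ^ 2 * ‖y‖ ^ 2 := by
  unfold Sv
  rw [Real.sq_sqrt (by positivity)]

theorem one_sub_inv {m : ℕ} (ε : ℝ) (y : EE m) : (Sv ε y)⁻¹ = 1 - ε ^ 2 * ‖y‖ ^ 2 * qv ε y := by
  have h := Sv_pos ε y
  have h2 := Sv_sq ε y
  unfold qv
  have h3 : Sv ε y ≠ 0 := by positivity
  have h4 : Sv ε y + 1 ≠ 0 := by positivity
  field_simp
  linear_combination -h2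

theorem jo_add {m : ℕ} (y y' : EE m) (z z' : ℝ) : jo y z + jo y' z' = jo (y + y') (z + z') := by
  ext i
  refine Fin.lastCases ?_ (fun j => ?_) i
  · simp only [PiLp.add_apply, jo_last]
  · simp only [PiLp.add_apply, jo_castSucc]

theorem jo_smul {m : ℕ} (c : ℝ) (y : EE m) (z : ℝ) : c • jo y z = jo (c • y) (c * z) := by
  ext i
  refine Fin.lastCases ?_ (fun j => ?_) i
  · simp only [PiLp.smul_apply, jo_last, smul_eq_mul]
  · simp only [PiLp.smul_apply, jo_castSucc, smul_eq_mul]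

/-- the point of the sphere -/
theorem w_eq {m : ℕ} (ε : ℝ) (y : EE m) :
    (Real.sqrt (1 + ‖ε • y‖ ^ 2))⁻¹ • jo (ε • y) 1 = jo 0 1 + ε • Wv ε y := by
  have h1 : Real.sqrt (1 + ‖ε • y‖ ^ 2) = Sv ε y := by
    unfold Sv
    rw [norm_smul, mul_pow, Real.norm_eq_abs, sq_abs]
  rw [h1]
  unfold Wv
  rw [jo_smul, jo_smul, jo_add, zero_add, smul_smul, smul_smul, mul_comm ε, mul_one]
  congr 1
  rw [one_sub_inv]
  ring

/-- the phase -/
theorem phase_eq {m : ℕ} (R ε X s : ℝ) (v : EE (m + 1)) (y Z : EE m) (hR : R * ε ^ 2 = 1)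
    (hy : s • y = Z) :
    s * (X - R * inner ℝ v ((Real.sqrt (1 + ‖ε • y‖ ^ 2))⁻¹ • jo (ε • y) 1)) =
      inner ℝ (jo (-((R * ε) • pr v)) (X - R * v (Fin.last m))) (jo Z s) + s * Ev ε v y := by
  have h1 : Real.sqrt (1 + ‖ε • y‖ ^ 2) = Sv ε y := by
    unfold Sv
    rw [norm_smul, mul_pow, Real.norm_eq_abs, sq_abs]
  rw [h1, jo_smul, jo_inner, inner_eq v, pr_jo, jo_last, mul_one, ← hy]
  simp only [inner_smul_right, inner_neg_left, inner_smul_left]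
  simp only [conj_trivial]
  rw [one_sub_inv]
  unfold Ev
  linear_combination (s * ‖y‖ ^ 2 * qv ε y * (ε * inner ℝ (pr v) y + v (Fin.last m))) * hR

/-- the size of `W` controls the size of `y` -/
theorem norm_y_le {m : ℕ} (ε : ℝ) (y : EE m) (h0 : 0 ≤ ε) (h1 : ε ≤ 1) (h : ‖Wv ε y‖ ≤ 1 / 4) :
    ‖y‖ ≤ 1 := by
  have h2 : ‖(Sv ε y)⁻¹ • y‖ ^ 2 ≤ ‖Wv ε y‖ ^ 2 := by
    unfold Wv
    rw [jo_norm_sq]
    nlinarith [sq_nonneg (-(ε * ‖y‖ ^ 2 * qv ε y))]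
  have hS := Sv_pos ε y
  have hSq := Sv_sq ε y
  rw [norm_smul, norm_inv, Real.norm_of_nonneg (by linarith), mul_pow, inv_pow, hSq] at h2
  have h3 : ‖Wv ε y‖ ^ 2 ≤ 1 / 16 := by nlinarith [norm_nonneg (Wv ε y)]
  have h4 : 0 < 1 + ε ^ 2 * ‖y‖ ^ 2 := by positivity
  have h5 : ‖y‖ ^ 2 ≤ 1 / 16 * (1 + ε ^ 2 * ‖y‖ ^ 2) := by
    have := h2.trans h3
    rw [inv_mul_le_iff₀ h4] at this
    linarith
  have h6 : ε ^ 2 * ‖y‖ ^ 2 ≤ ‖y‖ ^ 2 := by
    have : ε ^ 2 ≤ 1 := by nlinarith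
    nlinarith [sq_nonneg ‖y‖]
  nlinarith [norm_nonneg y]

/-! ### the integral in the new coordinates -/

/-- `(s, q) ↦ (s, Q q)` -/
noncomputable def Lq {m : ℕ} (Q : EE (m + 1) ≃ₗᵢ[ℝ] EE (m + 1)) :
    (ℝ × EE (m + 1)) →ₗᵢ[ℝ] (ℝ × EE (m + 1)) where
  toFun q := (q.1, Q q.2)
  map_add' a b := by simp
  map_smul' c a := by simp
  norm_map' q := by
    show ‖(q.1, Q q.2)‖ = ‖q‖
    rw [Prod.norm_def, Prod.norm_def]
    simp

theorem Lq_apply {m : ℕ} (Q : EE (m + 1) ≃ₗᵢ[ℝ] EE (m + 1)) (q : ℝ × EE (m + 1)) :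
    Lq Q q = (q.1, Q q.2) := rfl

/-- the amplitude -/
noncomputable def Gf {m : ℕ} (g : ℝ × EE (m + 1) → ℂ) (δ : ℝ) (ζ : EE (m + 1))
    (q : ℝ × EE (m + 1)) : ℂ := g (q.1, ζ + δ • q.2)

noncomputable def PsT {m : ℕ} (g : ℝ × EE (m + 1) → ℂ) (δ : ℝ) (ζ : EE (m + 1))
    (Q : EE (m + 1) ≃ₗᵢ[ℝ] EE (m + 1)) (p : PP m) (x : EE (m + 1)) : ℂ :=
  PsA (p, x) * Gf g δ ζ (Lq Q (PhA (p, x)))

theorem cd_PsT {m : ℕ} (g : ℝ × EE (m + 1) → ℂ) (hg : ContDiff ℝ (⊤ : ℕ∞) g) (δ : ℝ)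
    (ζ : EE (m + 1)) (Q : EE (m + 1) ≃ₗᵢ[ℝ] EE (m + 1)) (p : PP m) :
    ContDiff ℝ (⊤ : ℕ∞) (PsT g δ ζ Q p) := by
  unfold PsT Gf
  have h1 : ContDiff ℝ (⊤ : ℕ∞) fun x : EE (m + 1) => (p, x) := contDiff_const.prodMk contDiff_id
  apply ContDiff.mul
  · exact cd_PsA.comp h1
  · have h2 : ContDiff ℝ (⊤ : ℕ∞) fun x : EE (m + 1) => Lq Q (PhA (p, x)) :=
      (Lq Q).contDiff.comp (cd_PhA.comp h1)
    exact hg.comp (h2.fst.prodMk (contDiff_const.add (h2.snd.const_smul δ)))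

/-- the point `(y, z)` has the last coordinate `z` -/
theorem yv_jo {m : ℕ} (Z : EE m) {s : ℝ} (h1 : 1 / 8 ≤ s) (h2 : s ≤ 8) :
    yv (jo Z s) = s⁻¹ • Z := by
  unfold yv
  rw [jo_last, pr_jo, rho_eq h1 h2]

theorem PsT_eq_zero {m : ℕ} (g : ℝ × EE (m + 1) → ℂ)
    (hg : ∀ q, g q ≠ 0 → 1 / 8 ≤ q.1 ∧ q.1 ≤ 8) (δ : ℝ)
    (ζ : EE (m + 1)) (Q : EE (m + 1) ≃ₗᵢ[ℝ] EE (m + 1)) (p : PP m) (x : EE (m + 1))
    (hp0 : 0 ≤ p.1) (hp1 : p.1 ≤ 1)
    (hx : PsT g δ ζ Q p x ≠ 0) : (1 / 8 ≤ x (Fin.last m) ∧ x (Fin.last m) ≤ 8) ∧ ‖x‖ ≤ 12 ∧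
      ‖Wv p.1 (yv x)‖ ≤ 1 / 4 := by
  unfold PsT at hx
  have h1 := left_ne_zero_of_mul hx
  have h2 := right_ne_zero_of_mul hx
  have h3 := hg _ h2
  simp only [Lq_apply, PhA] at h3
  have h4 : ‖Wv p.1 (yv x)‖ ≤ 1 / 4 := by
    by_contra hcon
    push Not at hcon
    apply h1
    unfold PsA
    simp only
    rw [eta0_zero (by linarith)]
    simp
  have h5 := norm_y_le p.1 (yv x) hp0 hp1 h4
  refine ⟨h3, ?_, h4⟩
  unfold yv at h5
  rw [rho_eq h3.1 h3.2, norm_smul, norm_inv, Real.norm_of_nonneg (by linarith),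
    inv_mul_le_iff₀ (by linarith)] at h5
  have h6 := norm_sq_eq x
  rw [hor_eq] at h6
  nlinarith [norm_nonneg x, norm_nonneg (pr x)]

theorem inner_J {m : ℕ} (hSI : T_SI) (hGN : T_GN) (hm : 1 ≤ m) (g : ℝ × EE (m + 1) → ℂ)
    (hgc : Continuous g) (δ X R ε : ℝ) (u ζ : EE (m + 1)) (Q : EE (m + 1) ≃ₗᵢ[ℝ] EE (m + 1))
    (hR : 1 ≤ R) (hε : ε = 1 / Real.sqrt R) (hδ : 0 < δ) (hQ : Q (jo 0 1) = ζ) (s : ℝ)
    (hs1 : 1 / 8 ≤ s) (hs2 : s ≤ 8) :
    ∫ w : Sp (m + 1), e (s * (X - R * inner ℝ u (w : EE (m + 1)))) *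
      (g (s, (w : EE (m + 1))) *
        ((eta0 (8 * (Real.sqrt R * ‖(w : EE (m + 1)) - ζ‖)) : ℝ) : ℂ)) ∂(sg (m + 1)) =
    ((ε ^ m : ℝ) : ℂ) * ∫ Z : EE m,
      e (inner ℝ (jo (-((Real.sqrt R) • pr (Q.symm u))) (X - R * (Q.symm u) (Fin.last m)))
        (jo Z s)) * PsT g δ ζ Q (ε, ε / δ, Q.symm u) (jo Z s) := by
  have hR0 : 0 < R := by linarith
  have hsR : 1 ≤ Real.sqrt R := Real.one_le_sqrt.2 hR
  have hε0 : 0 < ε := by rw [hε]; positivity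
  have hε1 : ε ≤ 1 := by
    rw [hε, div_le_one (by positivity)]
    exact hsR
  have hεR : Real.sqrt R * ε = 1 := by
    rw [hε]
    field_simp
  have hRε : R * ε = Real.sqrt R := by
    have : R = Real.sqrt R * Real.sqrt R := (Real.mul_self_sqrt hR0.le).symm
    calc R * ε = Real.sqrt R * (Real.sqrt R * ε) := by rw [← mul_assoc, ← this]
      _ = Real.sqrt R := by rw [hεR, mul_one]
  have hRε2 : R * ε ^ 2 = 1 := by rw [pow_two, ← mul_assoc, hRε, hεR]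
  set h : EE (m + 1) → ℂ := fun x => e (s * (X - R * inner ℝ u x)) *
    (g (s, x) * ((eta0 (8 * (Real.sqrt R * ‖x - ζ‖)) : ℝ) : ℂ)) with hh
  have hcont : Continuous h := by
    have h1 : Continuous e := cd_e.continuous
    have h2 : Continuous eta0 := cd_eta0.continuous
    rw [hh]
    fun_prop
  have hsupp : HasCompactSupport h := by
    apply HasCompactSupport.intro (isCompact_closedBall ζ 1)
    intro x hx
    rw [Metric.mem_closedBall, dist_eq_norm, not_le] at hx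
    rw [hh]
    simp only
    rw [eta0_zero (by nlinarith)]
    simp
  obtain ⟨A, hA⟩ := hcont.bounded_above_of_compact_support hsupp
  have e1 : ∫ w : Sp (m + 1), h (w : EE (m + 1)) ∂(sg (m + 1)) =
      ∫ w : Sp (m + 1), h (Q (w : EE (m + 1))) ∂(sg (m + 1)) :=
    ((hSI (m + 1) Q (by omega)).2 h hcont.measurable ⟨A, hA⟩).symm
  have e2 := hGN m (fun x => h (Q x)) (hcont.comp Q.continuous).measurable
    ⟨A, fun x => hA _⟩ (by
      intro x hx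
      simp only [hh]
      have h1 : 1 ≤ ‖Q x - ζ‖ := by
        rw [← hQ, ← map_sub, Q.norm_map]
        have h2 := norm_sq_eq (x - jo (0 : EE m) 1)
        rw [PiLp.sub_apply, jo_last] at h2
        have h3 : 1 ≤ (x (Fin.last m) - 1) ^ 2 := by nlinarith
        nlinarith [norm_nonneg (x - jo 0 1), sq_nonneg (hor (x - jo 0 1))]
      rw [eta0_zero (by nlinarith)]
      simp)
  rw [show (∫ w : Sp (m + 1), e (s * (X - R * inner ℝ u (w : EE (m + 1)))) *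
      (g (s, (w : EE (m + 1))) *
        ((eta0 (8 * (Real.sqrt R * ‖(w : EE (m + 1)) - ζ‖)) : ℝ) : ℂ)) ∂(sg (m + 1))) =
      ∫ w : Sp (m + 1), h (w : EE (m + 1)) ∂(sg (m + 1)) from rfl, e1, e2]
  have hs0 : 0 < s := by linarith
  have hεs : 0 < ε / s := by positivity
  have e3 := Measure.integral_comp_smul (volume : Measure (EE m))
    (fun z : EE m => h (Q ((Real.sqrt (1 + ‖z‖ ^ 2))⁻¹ • jo z 1)) *
      (((Real.sqrt (1 + ‖z‖ ^ 2) ^ (m + 1))⁻¹ : ℝ) : ℂ)) (ε / s)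
  rw [finrank_euclideanSpace_fin, abs_of_pos (by positivity)] at e3
  have e4 : ∫ z : EE m, h (Q ((Real.sqrt (1 + ‖z‖ ^ 2))⁻¹ • jo z 1)) *
      (((Real.sqrt (1 + ‖z‖ ^ 2) ^ (m + 1))⁻¹ : ℝ) : ℂ) =
      ((ε / s) ^ m : ℝ) • ∫ Z : EE m,
        h (Q ((Real.sqrt (1 + ‖(ε / s) • Z‖ ^ 2))⁻¹ • jo ((ε / s) • Z) 1)) *
      (((Real.sqrt (1 + ‖(ε / s) • Z‖ ^ 2) ^ (m + 1))⁻¹ : ℝ) : ℂ) := by
    rw [e3, smul_smul, mul_inv_cancel₀ (by positivity), one_smul]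
  rw [e4, Complex.real_smul, ← integral_const_mul, ← integral_const_mul]
  refine integral_congr_ae (Filter.Eventually.of_forall fun Z => ?_)
  simp only
  have hy : (ε / s) • Z = ε • (s⁻¹ • Z) := by rw [smul_smul]; rfl
  set y : EE m := s⁻¹ • Z with hydef
  have hsy : s • y = Z := by rw [hydef, smul_smul, mul_inv_cancel₀ hs0.ne', one_smul]
  rw [hy]
  have hyv : yv (jo Z s) = y := yv_jo Z hs1 hs2
  clear_value y
  have hSS : Real.sqrt (1 + ‖ε • y‖ ^ 2) = Sv ε y := by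
    unfold Sv
    rw [norm_smul, mul_pow, Real.norm_eq_abs, sq_abs]
  have hw := w_eq ε y
  have hph := phase_eq R ε X s (Q.symm u) y Z hRε2 hsy
  have hinner : inner ℝ u (Q ((Real.sqrt (1 + ‖ε • y‖ ^ 2))⁻¹ • jo (ε • y) 1)) =
      inner ℝ (Q.symm u) ((Real.sqrt (1 + ‖ε • y‖ ^ 2))⁻¹ • jo (ε • y) 1) := by
    conv_lhs => rw [← Q.apply_symm_apply u]
    exact Q.inner_map_map _ _
  have hQw : Q ((Real.sqrt (1 + ‖ε • y‖ ^ 2))⁻¹ • jo (ε • y) 1) = ζ + ε • Q (Wv ε y) := by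
    rw [hw, map_add, hQ, map_smul]
  simp only [hh]
  rw [hinner, hph, hQw, hRε]
  unfold PsT PsA Gf PhA
  simp only [Lq_apply, hyv, jo_last]
  have hnorm : ‖ζ + ε • Q (Wv ε y) - ζ‖ = ε * ‖Wv ε y‖ := by
    rw [add_sub_cancel_left, norm_smul, Q.norm_map, Real.norm_of_nonneg hε0.le]
  have hδε : δ • Q ((ε / δ) • Wv ε y) = ε • Q (Wv ε y) := by
    rw [map_smul, smul_smul, mul_div_cancel₀ _ hδ.ne']
  rw [hnorm, ← mul_assoc (Real.sqrt R), hεR, one_mul, hδε, rho_eq hs1 hs2, hSS]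
  have hee : ∀ a b : ℝ, e (a + b) = e a * e b := by
    intro a b
    unfold e
    rw [← Complex.exp_add]
    congr 1
    push_cast
    ring
  rw [hee]
  push_cast
  rw [div_pow, inv_pow]
  ring

theorem PsT_supp {m : ℕ} (g : ℝ × EE (m + 1) → ℂ)
    (hg : ∀ q, g q ≠ 0 → 1 / 8 ≤ q.1 ∧ q.1 ≤ 8) (δ : ℝ)
    (ζ : EE (m + 1)) (Q : EE (m + 1) ≃ₗᵢ[ℝ] EE (m + 1)) (p : PP m)
    (hp0 : 0 ≤ p.1) (hp1 : p.1 ≤ 1) (x : EE (m + 1)) (hx : 12 < ‖x‖) :
    PsT g δ ζ Q p x = 0 := by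
  by_contra hcon
  have := (PsT_eq_zero g hg δ ζ Q p x hp0 hp1 hcon).2.1
  linarith

theorem osc_eq {m : ℕ} (hSI : T_SI) (hGN : T_GN) (hm : 1 ≤ m) (g : ℝ × EE (m + 1) → ℂ)
    (hgc : ContDiff ℝ (⊤ : ℕ∞) g) (hgs : ∀ q, g q ≠ 0 → 1 / 8 ≤ q.1 ∧ q.1 ≤ 8)
    (δ X R ε : ℝ) (u ζ : EE (m + 1)) (Q : EE (m + 1) ≃ₗᵢ[ℝ] EE (m + 1))
    (hR : 1 ≤ R) (hε : ε = 1 / Real.sqrt R) (hδ : 0 < δ) (hQ : Q (jo 0 1) = ζ) :
    osc (m + 1) (fun q => g q * ((eta0 (8 * (Real.sqrt R * ‖q.2 - ζ‖)) : ℝ) : ℂ)) X R u =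
    ((ε ^ m : ℝ) : ℂ) * MK (PsT g δ ζ Q (ε, ε / δ, Q.symm u))
      (jo (-((Real.sqrt R) • pr (Q.symm u))) (X - R * (Q.symm u) (Fin.last m))) := by
  have hsR : 1 ≤ Real.sqrt R := Real.one_le_sqrt.2 hR
  have hε0 : 0 < ε := by rw [hε]; positivity
  have hε1 : ε ≤ 1 := by
    rw [hε, div_le_one (by positivity)]
    exact hsR
  set V : EE (m + 1) := jo (-((Real.sqrt R) • pr (Q.symm u))) (X - R * (Q.symm u) (Fin.last m))
    with hV
  set Ψ : EE (m + 1) → ℂ := PsT g δ ζ Q (ε, ε / δ, Q.symm u) with hΨ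
  have hΨc : Continuous Ψ := (cd_PsT g hgc δ ζ Q _).continuous
  have hΨs : ∀ x, 12 < ‖x‖ → Ψ x = 0 := PsT_supp g hgs δ ζ Q _ hε0.le hε1
  have hFc : Continuous fun ξ : EE (m + 1) => e (inner ℝ V ξ) * Ψ ξ := by
    have h1 : Continuous e := cd_e.continuous
    fun_prop
  have hFs : HasCompactSupport fun ξ : EE (m + 1) => e (inner ℝ V ξ) * Ψ ξ := by
    apply HasCompactSupport.intro (isCompact_closedBall 0 12)
    intro x hx
    rw [Metric.mem_closedBall, dist_zero_right, not_le] at hx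
    rw [hΨs x hx, mul_zero]
  have hFi : Integrable fun ξ : EE (m + 1) => e (inner ℝ V ξ) * Ψ ξ :=
    hFc.integrable_of_hasCompactSupport hFs
  have hMK : MK Ψ V = ∫ s : ℝ, ∫ Z : EE m, e (inner ℝ V (jo Z s)) * Ψ (jo Z s) := by
    unfold MK
    have h1 : ∫ q : EE m × ℝ, e (inner ℝ V (jo q.1 q.2)) * Ψ (jo q.1 q.2)
        ∂(volume.prod volume) = ∫ ξ : EE (m + 1), e (inner ℝ V ξ) * Ψ ξ := by
      conv_rhs => rw [← (mp_jo m).map_eq]
      rw [integral_map (mp_jo m).aemeasurable hFc.aestronglyMeasurable]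
    rw [← h1]
    exact integral_prod_symm (fun q : EE m × ℝ => e (inner ℝ V (jo q.1 q.2)) * Ψ (jo q.1 q.2))
      ((mp_jo m).integrable_comp_of_integrable hFi)
  rw [hMK, ← integral_const_mul]
  unfold osc
  refine integral_congr_ae (Filter.Eventually.of_forall fun s => ?_)
  simp only
  by_cases hs : 1 / 8 ≤ s ∧ s ≤ 8
  · exact inner_J hSI hGN hm g hgc.continuous δ X R ε u ζ Q hR hε hδ hQ s hs.1 hs.2
  · have h1 : ∀ w : EE (m + 1), g (s, w) = 0 := by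
      intro w
      by_contra hcon
      exact hs (hgs _ hcon)
    have h2 : ∀ Z : EE m, Ψ (jo Z s) = 0 := by
      intro Z
      rw [hΨ]
      unfold PsT Gf PhA
      simp only [Lq_apply, jo_last, h1, mul_zero]
    simp only [h1, h2, zero_mul, mul_zero, integral_zero]

/-! ### derivatives of the amplitude -/

/-- the compact set of the parameters and points -/
def KK (m : ℕ) : Set (PP m × EE (m + 1)) :=
  (Icc 0 1 ×ˢ (Icc 0 1 ×ˢ Metric.closedBall 0 1)) ×ˢ Metric.closedBall 0 12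

theorem isCompact_KK (m : ℕ) : IsCompact (KK m) :=
  (isCompact_Icc.prod (isCompact_Icc.prod (isCompact_closedBall _ _))).prod
    (isCompact_closedBall _ _)

theorem bounds {m : ℕ} (hCP : T_CP) (M : ℕ) : ∃ C : ℝ, 1 ≤ C ∧ ∀ k ≤ M, ∀ q ∈ KK m,
    ‖iteratedFDeriv ℝ k (fun x => (PsA : PP m × EE (m + 1) → ℂ) (q.1, x)) q.2‖ ≤ C ∧
    ‖iteratedFDeriv ℝ k (fun x => (PhA : PP m × EE (m + 1) → ℝ × EE (m + 1)) (q.1, x)) q.2‖ ≤
      C := by
  choose c hc using fun k : ℕ => hCP (PP m) (EE (m + 1)) ℂ k PsA univ (KK m) isOpen_univ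
    cd_PsA.contDiffOn (isCompact_KK m) (subset_univ _)
  choose d hd using fun k : ℕ => hCP (PP m) (EE (m + 1)) (ℝ × EE (m + 1)) k PhA univ (KK m)
    isOpen_univ cd_PhA.contDiffOn (isCompact_KK m) (subset_univ _)
  refine ⟨1 + ∑ k ∈ Finset.range (M + 1), (|c k| + |d k|), ?_, ?_⟩
  · have : 0 ≤ ∑ k ∈ Finset.range (M + 1), (|c k| + |d k|) :=
      Finset.sum_nonneg fun _ _ => by positivity
    linarith
  · intro k hk q hq
    have h1 : |c k| + |d k| ≤ ∑ k ∈ Finset.range (M + 1), (|c k| + |d k|) :=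
      Finset.single_le_sum (f := fun k => |c k| + |d k|) (fun _ _ => by positivity)
        (Finset.mem_range.2 (by omega))
    constructor
    · refine (hc k q hq).trans ?_
      have := le_abs_self (c k)
      have := abs_nonneg (d k)
      linarith
    · refine (hd k q hq).trans ?_
      have := le_abs_self (d k)
      have := abs_nonneg (c k)
      linarith

theorem deriv_bound {m : ℕ} (M : ℕ) (C B : ℝ) (hC1 : 1 ≤ C)
    (hC : ∀ k ≤ M, ∀ q ∈ KK m,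
      ‖iteratedFDeriv ℝ k (fun x => (PsA : PP m × EE (m + 1) → ℂ) (q.1, x)) q.2‖ ≤ C ∧
      ‖iteratedFDeriv ℝ k (fun x => (PhA : PP m × EE (m + 1) → ℝ × EE (m + 1)) (q.1, x)) q.2‖ ≤
        C)
    (g : ℝ × EE (m + 1) → ℂ) (δ : ℝ) (hg : SA (m + 1) M δ B g) (ζ : EE (m + 1))
    (hζ : ‖ζ‖ = 1) (Q : EE (m + 1) ≃ₗᵢ[ℝ] EE (m + 1)) (p : PP m)
    (hp : p ∈ (Icc 0 1 ×ˢ (Icc 0 1 ×ˢ Metric.closedBall 0 1) : Set (PP m))) (k : ℕ) (hk : k ≤ M)
    (x : EE (m + 1)) :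
    ‖iteratedFDeriv ℝ k (PsT g δ ζ Q p) x‖ ≤ 2 ^ M * (C * (M.factorial * B * C ^ M)) := by
  obtain ⟨hg1, hg2, hg3⟩ := hg
  have hB : 0 ≤ B := (norm_nonneg _).trans (hg3 ζ hζ 0 (by omega) 0 (by simp))
  by_cases hx : x ∈ tsupport (PsT g δ ζ Q p)
  swap
  · have h1 : x ∉ tsupport (iteratedFDeriv ℝ k (PsT g δ ζ Q p)) := fun h =>
      hx (tsupport_iteratedFDeriv_subset k h)
    rw [image_eq_zero_of_notMem_tsupport h1, norm_zero]
    positivity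
  -- the point `x` is in the closed set where everything is bounded
  have hcl : tsupport (PsT g δ ζ Q p) ⊆ {x | ‖x‖ ≤ 12 ∧ ‖Wv p.1 (yv x)‖ ≤ 1 / 4} := by
    apply closure_minimal
    · intro z hz
      have := PsT_eq_zero g hg2 δ ζ Q p z hp.1.1 hp.1.2 hz
      exact this.2
    · have hW : Continuous fun x : EE (m + 1) => Wv p.1 (yv x) :=
        (cd_Wv (m := m)).continuous.comp (continuous_const.prodMk continuous_id : Continuous
          fun x : EE (m + 1) => (p, x))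
      exact (isClosed_le continuous_norm continuous_const).inter
        (isClosed_le hW.norm continuous_const)
  obtain ⟨hx1, hx2⟩ := hcl hx
  have hq : ((p, x) : PP m × EE (m + 1)) ∈ KK m := by
    refine ⟨hp, ?_⟩
    rw [Metric.mem_closedBall, dist_zero_right]
    exact hx1
  have h1 : ContDiff ℝ (⊤ : ℕ∞) fun x : EE (m + 1) => (p, x) := contDiff_const.prodMk contDiff_id
  have hA : ContDiff ℝ (⊤ : ℕ∞) fun x : EE (m + 1) => PsA (p, x) := cd_PsA.comp h1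
  have hPh : ContDiff ℝ (⊤ : ℕ∞) fun x : EE (m + 1) => PhA (p, x) := cd_PhA.comp h1
  have hLP : ContDiff ℝ (⊤ : ℕ∞) fun x : EE (m + 1) => Lq Q (PhA (p, x)) :=
    (Lq Q).contDiff.comp hPh
  have hG : ContDiff ℝ (⊤ : ℕ∞) (Gf g δ ζ) := by
    unfold Gf
    exact hg1.comp (contDiff_fst.prodMk (contDiff_const.add (contDiff_snd.const_smul δ)))
  have hGL : ContDiff ℝ (⊤ : ℕ∞) fun x : EE (m + 1) => Gf g δ ζ (Lq Q (PhA (p, x))) :=
    hG.comp hLP
  -- composition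
  have hcomp : ∀ j ≤ M, ‖iteratedFDeriv ℝ j
      (fun x : EE (m + 1) => Gf g δ ζ (Lq Q (PhA (p, x)))) x‖ ≤ M.factorial * B * C ^ M := by
    intro j hj
    have h2 := norm_iteratedFDeriv_comp_le (𝕜 := ℝ) (g := Gf g δ ζ)
      (f := fun x : EE (m + 1) => Lq Q (PhA (p, x))) (n := j) (N := ((⊤ : ℕ∞) : WithTop ℕ∞))
      hG hLP (by exact_mod_cast le_top) x (C := B) (D := C)
      (by
        intro i hi
        apply hg3 ζ hζ i (hi.trans hj)
        show ‖Q (p.2.1 • Wv p.1 (yv x))‖ ≤ 1 / 4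
        rw [Q.norm_map, norm_smul, Real.norm_of_nonneg hp.2.1.1]
        have h3 := hp.2.1.2
        nlinarith [norm_nonneg (Wv p.1 (yv x)), hp.2.1.1])
      (by
        intro i hi1 hi2
        have h3 := (Lq Q).norm_iteratedFDeriv_comp_left (f := fun x : EE (m + 1) => PhA (p, x))
          (x := x) (hPh.contDiffAt) (i := i) (by exact_mod_cast le_top)
        have h4 : ‖iteratedFDeriv ℝ i (fun x : EE (m + 1) => Lq Q (PhA (p, x))) x‖ =
          ‖iteratedFDeriv ℝ i (fun x : EE (m + 1) => PhA (p, x)) x‖ := h3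
        rw [h4]
        refine ((hC i (hi2.trans hj) (p, x) hq).2).trans ?_
        calc C = C ^ 1 := (pow_one C).symm
          _ ≤ C ^ i := pow_le_pow_right₀ hC1 hi1)
    refine h2.trans ?_
    have h5 : (j.factorial : ℝ) ≤ M.factorial := by exact_mod_cast Nat.factorial_le hj
    have h6 : C ^ j ≤ C ^ M := pow_le_pow_right₀ hC1 hj
    gcongr
  have hmul := norm_iteratedFDeriv_mul_le (𝕜 := ℝ) (N := ((⊤ : ℕ∞) : WithTop ℕ∞)) hA hGL x
    (n := k) (by exact_mod_cast le_top)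
  refine hmul.trans ?_
  calc ∑ i ∈ Finset.range (k + 1), (k.choose i : ℝ) *
        ‖iteratedFDeriv ℝ i (fun x : EE (m + 1) => PsA (p, x)) x‖ *
        ‖iteratedFDeriv ℝ (k - i) (fun x : EE (m + 1) => Gf g δ ζ (Lq Q (PhA (p, x)))) x‖
      ≤ ∑ i ∈ Finset.range (k + 1), (k.choose i : ℝ) * C * (M.factorial * B * C ^ M) := by
        apply Finset.sum_le_sum
        intro i hi
        rw [Finset.mem_range] at hi
        have h7 := (hC i (by omega) (p, x) hq).1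
        have h8 := hcomp (k - i) (by omega)
        simp only at h7
        gcongr
    _ = 2 ^ k * (C * (M.factorial * B * C ^ M)) := by
        have h9 : ∑ i ∈ Finset.range (k + 1), (k.choose i : ℝ) = 2 ^ k := by
          exact_mod_cast Nat.sum_range_choose k
        rw [← h9, Finset.sum_mul]
        exact Finset.sum_congr rfl fun i _ => by ring
    _ ≤ 2 ^ M * (C * (M.factorial * B * C ^ M)) := by
        have h10 : (2 : ℝ) ^ k ≤ 2 ^ M := pow_le_pow_right₀ (by norm_num) hk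
        gcongr

/-- BU -/
theorem pf_bu (hDK : T_DK) (hCP : T_CP) (hGN : T_GN) (hSI : T_SI) : T_BU := by
  intro n N hn
  obtain ⟨m, rfl⟩ : ∃ m, n = m + 1 := ⟨n - 1, by omega⟩
  have hm : 1 ≤ m := by omega
  obtain ⟨M, CD, hCD⟩ := hDK (m + 1) (2 * N) 12
  obtain ⟨C, hC1, hC⟩ := bounds (m := m) hCP M
  refine ⟨M, |CD| * (2 ^ M * (C * (M.factorial * C ^ M))), ?_⟩
  intro g δ B X R u ζ hg hR hRδ hu hζ
  have hsR : 1 ≤ Real.sqrt R := Real.one_le_sqrt.2 hR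
  set ε : ℝ := 1 / Real.sqrt R with hε
  have hε0 : 0 < ε := by rw [hε]; positivity
  have hε1 : ε ≤ 1 := by
    rw [hε, div_le_one (by positivity)]
    exact hsR
  have hδ : 0 < δ := lt_of_lt_of_le hε0 hRδ
  have hB : 0 ≤ B := (norm_nonneg _).trans (hg.2.2 ζ hζ 0 (by omega) 0 (by simp))
  -- the rotation
  obtain ⟨Q, hQ⟩ : ∃ Q : EE (m + 1) ≃ₗᵢ[ℝ] EE (m + 1), Q (jo 0 1) = ζ := by
    have h1 : ‖(jo (0 : EE m) 1)‖ = ‖ζ‖ := by
      have h2 := jo_norm_sq (0 : EE m) 1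
      rw [norm_zero] at h2
      have h3 : ‖jo (0 : EE m) 1‖ ^ 2 = 1 ^ 2 := by rw [h2]; norm_num
      rw [hζ]
      exact (sq_eq_sq₀ (norm_nonneg _) (by norm_num)).1 h3
    exact ⟨_, Submodule.reflection_sub h1⟩
  have hosc := osc_eq hSI hGN hm g hg.1 hg.2.1 δ X R ε u ζ Q hR rfl hδ hQ
  rw [hosc]
  set v : EE (m + 1) := Q.symm u with hv
  have hvn : ‖v‖ = 1 := by rw [hv, LinearIsometryEquiv.norm_map, hu]
  have hp : ((ε, ε / δ, v) : PP m) ∈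
      (Icc 0 1 ×ˢ (Icc 0 1 ×ˢ Metric.closedBall 0 1) : Set (PP m)) := by
    refine ⟨⟨hε0.le, hε1⟩, ⟨by positivity, ?_⟩, ?_⟩
    · show ε / δ ≤ 1
      rw [div_le_one hδ]
      exact hRδ
    · rw [Metric.mem_closedBall, dist_zero_right]
      exact hvn.le
  have hdk := hCD (2 ^ M * (C * (M.factorial * B * C ^ M))) (PsT g δ ζ Q (ε, ε / δ, v))
    (cd_PsT g hg.1 δ ζ Q _) (PsT_supp g hg.2.1 δ ζ Q _ hε0.le hε1)
    (fun k hk x => deriv_bound M C B hC1 hC g δ hg ζ hζ Q _ hp k hk x)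
    (jo (-((Real.sqrt R) • pr v)) (X - R * v (Fin.last m)))
  -- the coordinates of `v`
  have hlast : v (Fin.last m) = inner ℝ u ζ := by
    have h1 : inner ℝ v (jo (0 : EE m) 1) = v (Fin.last m) := by
      rw [inner_eq, pr_jo, jo_last, inner_zero_right]
      ring
    rw [← h1, hv, ← hQ]
    conv_rhs => rw [← Q.apply_symm_apply u]
    exact (Q.inner_map_map _ _).symm
  have hpr : ‖pr v‖ = ‖u - (inner ℝ u ζ) • ζ‖ := by
    have h1 : u - (inner ℝ u ζ) • ζ = Q (v - (inner ℝ u ζ) • jo (0 : EE m) 1) := by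
      rw [map_sub, map_smul, hQ, hv, Q.apply_symm_apply]
    rw [h1, Q.norm_map, ← hlast]
    have h2 : v - (v (Fin.last m)) • jo (0 : EE m) 1 = jo (pr v) 0 := by
      ext i
      refine Fin.lastCases ?_ (fun j => ?_) i
      · simp [jo_last]
      · simp [jo_castSucc, pr]
    rw [h2]
    have h3 := jo_norm_sq (pr v) 0
    have h4 : ‖jo (pr v) 0‖ ^ 2 = ‖pr v‖ ^ 2 := by rw [h3]; ring
    exact ((sq_eq_sq₀ (norm_nonneg _) (norm_nonneg _)).1 h4).symm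
  rw [hlast] at hdk ⊢
  set V : EE (m + 1) := jo (-((Real.sqrt R) • pr v)) (X - R * inner ℝ u ζ) with hV
  have hVn : ‖V‖ ^ 2 = (Real.sqrt R * ‖u - (inner ℝ u ζ) • ζ‖) ^ 2 + (X - R * inner ℝ u ζ) ^ 2 := by
    rw [hV, jo_norm_sq, norm_neg, norm_smul, Real.norm_of_nonneg (by positivity), hpr]
  have ha : |X - R * inner ℝ u ζ| ≤ ‖V‖ := by
    apply abs_le_of_sq_le_sq' _ (norm_nonneg _) |> fun h => abs_le.2 h
    rw [hVn]
    nlinarith [sq_nonneg (Real.sqrt R * ‖u - (inner ℝ u ζ) • ζ‖)]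
  have hb : Real.sqrt R * ‖u - (inner ℝ u ζ) • ζ‖ ≤ ‖V‖ := by
    apply le_of_sq_le_sq _ (norm_nonneg _)
    rw [hVn]
    nlinarith [sq_nonneg (X - R * inner ℝ u ζ)]
  set a : ℝ := |X - R * inner ℝ u ζ| with hadef
  set b : ℝ := Real.sqrt R * ‖u - (inner ℝ u ζ) • ζ‖ with hbdef
  have ha0 : 0 ≤ a := abs_nonneg _
  have hb0 : 0 ≤ b := by positivity
  have hεm : ε ^ m = (Real.sqrt R ^ (m + 1 - 1))⁻¹ := by
    rw [hε, one_div, inv_pow, Nat.add_sub_cancel]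
  rw [norm_mul, Complex.norm_real, Real.norm_of_nonneg (by positivity), hεm]
  set K : ℝ := ‖MK (PsT g δ ζ Q (ε, ε / δ, v)) V‖ with hK
  have hK0 : 0 ≤ K := norm_nonneg _
  have h1 : (1 + a) ^ N * (1 + b) ^ N ≤ (1 + ‖V‖) ^ (2 * N) := by
    rw [two_mul, pow_add]
    gcongr
  have h2 : K * ((1 + a) ^ N * (1 + b) ^ N) ≤
      |CD| * (2 ^ M * (C * (M.factorial * C ^ M))) * B := by
    calc K * ((1 + a) ^ N * (1 + b) ^ N) ≤ K * (1 + ‖V‖) ^ (2 * N) := by gcongr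
      _ ≤ CD * (2 ^ M * (C * (M.factorial * B * C ^ M))) := hdk
      _ ≤ |CD| * (2 ^ M * (C * (M.factorial * B * C ^ M))) := by
          have h3 := le_abs_self CD
          have h4 : 0 ≤ 2 ^ M * (C * (M.factorial * B * C ^ M)) := by positivity
          gcongr
      _ = |CD| * (2 ^ M * (C * (M.factorial * C ^ M))) * B := by ring
  have h5 : K ≤ |CD| * (2 ^ M * (C * (M.factorial * C ^ M))) * B * ((1 + a) ^ N)⁻¹ *
      ((1 + b) ^ N)⁻¹ := by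
    rw [mul_assoc, ← mul_inv, ← div_eq_mul_inv, le_div_iff₀ (by positivity)]
    exact h2
  calc (Real.sqrt R ^ (m + 1 - 1))⁻¹ * K
      ≤ (Real.sqrt R ^ (m + 1 - 1))⁻¹ *
        (|CD| * (2 ^ M * (C * (M.factorial * C ^ M))) * B * ((1 + a) ^ N)⁻¹ *
          ((1 + b) ^ N)⁻¹) := by gcongr
    _ = _ := by ring

end Pool.Agent.H89.BR
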